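import Pool.Agent.K9h64.PL.Eq
import Pool.Agent.K9h61.PL.Stm3

open scoped Classical

namespace K9h64.PL

open K9h61.PL

theorem t_E (hM : S_M) : S_E := by
  intro V _ _ A hV hB n hn
  refine ⟨gap hM V A hV hB n hn, fun he => ?_⟩
  obtain ⟨h1, h2, h3, h4, h5⟩ := equality hM V A hV hB n hn he
  exact ⟨h1, h2, h4, h5, h3⟩

end K9h64.PL
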