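import Pool.Agent.K9h64.PL.H

/-!
# The Bogomolov–Miyaoka–Yau inequality for pseudoline arrangements, `n ≥ 3`: gap and equality case
-/

open scoped Classical

namespace K9h64.PL

open K9h61.PL Finset

/-- the numerical data of a pseudoline arrangement -/
theorem keyX (hM : S_M) (V : Type) [Fintype V] [LinearOrder V] (A : Arr V)
    (hV : 2 ≤ Fintype.card V) (hB : ∀ i < A.N, (A.B i).card + 2 ≤ Fintype.card V) :
    ∃ k D h S m : ℤ, (Fintype.card V : ℤ) = k ∧ 4 ≤ k ∧ 0 ≤ D ∧ 1 ≤ h ∧ 0 ≤ S ∧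
      m = h + (k - 3) - D ∧ (A.t2 : ℤ) = 3 + D + S ∧ (A.f0 : ℤ) = 3 + D + S + m ∧
      (A.f1 : ℤ) = 2 * (3 + D + S) + 3 * m + S ∧
      2 * (k - 3) ≤ 6 * h + 3 * S + 2 * D ∧
      k * (k - 1) ≤ 2 * (3 + D + S) + 6 * m + (S + 5) * S := by
  have h1 : (A.f1 : ℤ) + 3 ≤ 3 * A.f0 := by
    exact_mod_cast (hM V A hV).1 (fun i hi => by have := hB i hi; omega)
  have h2 : 2 * (A.t2 : ℤ) + 3 * A.f1 + 10 ≤ 10 * A.f0 := by
    exact_mod_cast (hM V A hV).2 hB
  have h3 := strictH hM V A hV hB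
  have e0 := Num.f0_eq A
  have e1 := Num.f1_eq A
  have e2 := Num.pair_eq A
  have hS := Num.SS_nonneg A
  have hQ := Num.QQ_le A
  -- at least four lines
  have hk4 : 4 ≤ Fintype.card V := by
    obtain ⟨x, y, hxy⟩ := Fintype.one_lt_card_iff.1 hV
    obtain ⟨i, hi, hx, hy⟩ := A.cross x y hxy
    have := Finset.one_lt_card.2 ⟨x, hx, y, hy, hxy⟩
    have := hB i hi
    omega
  set k : ℤ := (Fintype.card V : ℤ) with hk
  have hk4' : (4 : ℤ) ≤ k := by rw [hk]; exact_mod_cast hk4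
  set D : ℤ := 3 * A.f0 - A.f1 - 3 with hD
  have hD0 : 0 ≤ D := by omega
  have ht : (A.t2 : ℤ) = 3 + D + Num.SS A := by omega
  have hH' : k - 3 + 1 ≤ Num.mm A + D := by omega
  have hd : Num.SS A + 4 ≤ Num.mm A + 2 * D := by omega
  have hX : 2 * (k - 3) ≤ 6 * (Num.mm A + D - (k - 3)) + 3 * Num.SS A + 2 * D := by
    rcases le_or_gt k 13 with hk13 | hk13
    · rcases le_or_gt (Num.SS A) 6 with hS6 | hS6
      · obtain ⟨s1, s2, s3⟩ := Num.small_eq A hS6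
        exact Num.small hk4' hk13 (Num.tt_nonneg A 3) (Num.tt_nonneg A 4) (Num.tt_nonneg A 5)
          (Num.tt_nonneg A 6) (Num.tt_nonneg A 7) (Num.tt_nonneg A 8) (Num.tt_nonneg A 9) hD0
          s1 s2 s3 ht (by omega) hd e2
      · omega
    · apply Num.large (by omega) hD0 (by omega) hS
      nlinarith
  refine ⟨k, D, Num.mm A + D - (k - 3), Num.SS A, Num.mm A, rfl, hk4', hD0, by omega, hS,
    by ring, ht, by omega, by omega, hX, ?_⟩
  rw [e2, ht]
  linarith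

/-- the decomposition of the polynomial -/
theorem decomp (n k D h S m f0 f1 t2 : ℤ) (hm : m = h + (k - 3) - D) (h2 : t2 = 3 + D + S)
    (h0 : f0 = 3 + D + S + m) (h1 : f1 = 2 * (3 + D + S) + 3 * m + S) :
    n ^ 2 * (f0 - k) + 2 * n * (k - f1 + f0) + 2 * f1 + f0 - k - 4 * t2 =
      (n - 3) * (6 * h + 3 * S + 2 * D - 2 * (k - 3)) + h * (n - 5) ^ 2 + (n - 3) * (n - 4) * S := by
  subst hm h2 h0 h1
  ring

/-- **the gap in the BMY inequality**, all exponents `n ≥ 3` -/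
theorem gap (hM : S_M) (V : Type) [Fintype V] [LinearOrder V] (A : Arr V)
    (hV : 2 ≤ Fintype.card V) (hB : ∀ i < A.N, (A.B i).card + 2 ≤ Fintype.card V)
    (n : ℤ) (hn : 3 ≤ n) :
    (n - 5) ^ 2 ≤ n ^ 2 * ((A.f0 : ℤ) - Fintype.card V) +
      2 * n * (Fintype.card V - A.f1 + A.f0) +
      2 * A.f1 + A.f0 - Fintype.card V - 4 * A.t2 := by
  obtain ⟨k, D, h, S, m, hk, hk4, hD, hh, hS, hm, h2, h0, h1, hX, -⟩ := keyX hM V A hV hB
  rw [hk, decomp n k D h S m A.f0 A.f1 A.t2 hm h2 h0 h1]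
  have a1 : 0 ≤ (n - 3) * (6 * h + 3 * S + 2 * D - 2 * (k - 3)) :=
    mul_nonneg (by linarith) (by linarith)
  have a2 : (n - 5) ^ 2 ≤ h * (n - 5) ^ 2 := by
    have := mul_le_mul_of_nonneg_right hh (sq_nonneg (n - 5))
    linarith
  have a3 : 0 ≤ (n - 3) * (n - 4) * S := by
    refine mul_nonneg ?_ hS
    rcases eq_or_lt_of_le hn with h3 | h3
    · rw [← h3]; norm_num
    · exact mul_nonneg (by linarith) (by linarith [Int.add_one_le_iff.2 h3])
  linarith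

/-- **the equality case**, all exponents `n ≥ 3` -/
theorem equality (hM : S_M) (V : Type) [Fintype V] [LinearOrder V] (A : Arr V)
    (hV : 2 ≤ Fintype.card V) (hB : ∀ i < A.N, (A.B i).card + 2 ≤ Fintype.card V)
    (n : ℤ) (hn : 3 ≤ n)
    (he : n ^ 2 * ((A.f0 : ℤ) - Fintype.card V) + 2 * n * (Fintype.card V - A.f1 + A.f0) +
      2 * A.f1 + A.f0 - Fintype.card V - 4 * A.t2 = 0) :
    n = 5 ∧ Fintype.card V = 6 ∧ A.t2 = 3 ∧ A.f0 = 7 ∧ A.f1 = 18 := by
  have hg := gap hM V A hV hB n hn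
  rw [he] at hg
  have hn5 : n = 5 := by
    have h1 : (n - 5) ^ 2 = 0 := le_antisymm hg (sq_nonneg _)
    have h2 : n - 5 = 0 := by simpa using h1
    linarith
  obtain ⟨k, D, h, S, m, hk, hk4, hD, hh, hS, hm, h2, h0, h1, hX, hp⟩ := keyX hM V A hV hB
  rw [hk, decomp n k D h S m A.f0 A.f1 A.t2 hm h2 h0 h1, hn5] at he
  have hS0 : S = 0 := by nlinarith
  have hX0 : 6 * h + 3 * S + 2 * D - 2 * (k - 3) = 0 := by nlinarith
  subst hS0
  have hDk : D = k - 3 - 3 * h := by linarith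
  subst hDk
  have hk6 : k ≤ 6 := by nlinarith
  have hh1 : h = 1 := by
    have : 3 * h ≤ 3 := by linarith
    linarith
  subst hh1
  have hk6' : k = 6 := by linarith
  subst hk6'
  refine ⟨hn5, by exact_mod_cast hk, ?_, ?_, ?_⟩
  · have : (A.t2 : ℤ) = 3 := by linarith
    exact_mod_cast this
  · have : (A.f0 : ℤ) = 7 := by linarith
    exact_mod_cast this
  · have : (A.f1 : ℤ) = 18 := by linarith
    exact_mod_cast this

end K9h64.PL
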