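import Pool.Agent.K9h61.PL.Num

/-!
# The improved Hirzebruch inequality for pseudoline arrangements

`t_2 + t_3 ≥ k + 1 + ∑_{r ≥ 5} (r - 4) t_r` for all arrangements of `k` pseudolines without points on `k` or
`k - 1` of them. The proof follows LEAF H of helper61 (`Pool/Agent/K9h61/PL/H.lean`); the equality case of the
counting argument is excluded by the number of the pairs of pseudolines.
-/

open scoped Classical

namespace K9h64.PL

open K9h61.PL K9h61.PL.LeafH Finset

theorem main' (hM : S_M) : ∀ (k : ℕ) (V : Type) [Fintype V] [LinearOrder V] (A : Arr V),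
    Fintype.card V = k → 2 ≤ k → (∀ i < A.N, (A.B i).card + 2 ≤ k) →
    (k : ℤ) + 1 ≤ ∑ i ∈ range A.N, phi (A.B i).card := by
  intro k
  induction k with
  | zero => intro V _ _ A _ h
            omega
  | succ k ih =>
    intro V _ _ A hk hk2 hB
    -- a point
    obtain ⟨x0, y0, hxy0⟩ : ∃ x y : V, x ≠ y := Fintype.exists_pair_of_one_lt_card (by omega)
    obtain ⟨i0, hi0, hx0, hy0⟩ := A.cross x0 y0 hxy0
    have hb0 : 2 ≤ (A.B i0).card := by
      have : ({x0, y0} : Finset V) ⊆ A.B i0 := by
        intro z hz
        rw [mem_insert, mem_singleton] at hz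
        rcases hz with rfl | rfl <;> assumption
      have h2 := card_le_card this
      rwa [card_pair hxy0] at h2
    have hk4 : 4 ≤ k + 1 := by
      have := hB i0 hi0
      omega
    -- the data of a point `P`
    have data : ∀ p < A.N, ∀ i < A.N, i ≠ p → (A.B i ∩ A.B p).card ≤ 1 := by
      intro p hp i hi hip
      rw [card_le_one]
      intro a ha b hb
      by_contra hab
      rw [mem_inter] at ha hb
      exact hip (A.uniq a b hab i hi p hp ha.1 hb.1 ha.2 hb.2)
    have hsplit : ∀ p i, (A.B i).card = (A.B i ∩ A.B p).card + (A.B i ∩ (univ \ A.B p)).card := by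
      intro p i
      rw [← card_union_of_disjoint]
      · congr 1
        ext x
        simp only [mem_union, mem_inter, mem_sdiff, mem_univ, true_and]
        tauto
      · rw [disjoint_left]
        intro x hx hx2
        rw [mem_inter] at hx hx2
        exact (mem_sdiff.1 hx2.2).2 hx.2
    have hYc : ∀ p, ((univ \ A.B p).card : ℤ) = (k + 1 : ℤ) - (A.B p).card := by
      intro p
      have h1 : (univ \ A.B p).card + (A.B p).card = (univ : Finset V).card :=
        card_sdiff_add_card_eq_card (subset_univ _)
      rw [card_univ, hk] at h1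
      have h2 : (((univ \ A.B p).card + (A.B p).card : ℕ) : ℤ) = ((k + 1 : ℕ) : ℤ) := by rw [h1]
      push_cast at h2
      linarith
    have hYp : ∀ p, (A.B p ∩ (univ \ A.B p)).card = 0 := by
      intro p
      rw [card_eq_zero]
      ext x
      simp only [mem_inter, mem_sdiff, mem_univ, true_and]
      tauto
    have hdis : ∀ p, Disjoint (A.B p) (univ \ A.B p) := fun p => disjoint_sdiff
    by_cases hA : ∃ p < A.N, (A.B p).card + 2 = k + 1
    · -- a point of multiplicity `k - 2`
      obtain ⟨p, hp, hpk⟩ := hA
      by_cases hr2 : (A.B p).card = 2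
      · -- four lines in general position
        have hk3 : k + 1 = 4 := by omega
        have e := pairs_off A univ
        rw [card_univ, hk, hk3] at e
        have e' : 2 * ∑ i ∈ range A.N, phi (A.B i).card = ∑ i ∈ range A.N,
            ((A.B i ∩ univ).card : ℤ) * (((A.B i ∩ univ).card : ℤ) - 1) := by
          rw [mul_sum]
          refine sum_congr rfl fun i hi => ?_
          have h1 := hB i (mem_range.1 hi)
          rw [inter_univ]
          generalize (A.B i).card = b at h1 ⊢
          have h2 : b ≤ 2 := by omega
          unfold phi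
          interval_cases b <;> norm_num
        rw [e] at e'
        rw [hk3]
        push_cast at e' ⊢
        linarith
      set Y := univ \ A.B p with hY
      have e1 := pairs_prod A (A.B p) Y (hdis p)
      have e2 := pairs_off A Y
      have hYc' : (Y.card : ℤ) = 2 := by
        rw [hY, hYc p]
        have : (((A.B p).card + 2 : ℕ) : ℤ) = ((k + 1 : ℕ) : ℤ) := by rw [hpk]
        push_cast at this
        linarith
      have hYn : Y.card = 2 := by exact_mod_cast hYc'
      rw [hYc'] at e1 e2
      have hmem : p ∈ range A.N := mem_range.2 hp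
      rw [← add_sum_erase _ _ hmem] at e1 e2 ⊢
      have hz : (A.B p ∩ Y).card = 0 := hYp p
      rw [hz] at e1 e2
      have h5 : ∑ i ∈ (range A.N).erase p, (2 * (((A.B i ∩ A.B p).card : ℤ) * (A.B i ∩ Y).card) -
          ((A.B i ∩ Y).card : ℤ) * (((A.B i ∩ Y).card : ℤ) - 1)) ≤
          ∑ i ∈ (range A.N).erase p, 2 * phi (A.B i).card := by
        refine sum_le_sum fun i hi => ?_
        obtain ⟨h6, h7⟩ := mem_erase.1 hi
        rw [hsplit p i]
        refine loc_c _ _ (data p hp i (mem_range.1 h7) h6) ?_
        rw [← hYn]
        exact card_le_card inter_subset_right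
      rw [sum_sub_distrib, ← mul_sum, ← mul_sum] at h5
      have h8 : (4 : ℤ) - (A.B p).card ≤ phi (A.B p).card := by
        unfold phi
        split_ifs <;> omega
      have hk' : ((k + 1 : ℕ) : ℤ) = (A.B p).card + 2 := by exact_mod_cast hpk.symm
      rw [hk']
      have e1' : ∑ i ∈ (range A.N).erase p, ((A.B i ∩ A.B p).card : ℤ) * (A.B i ∩ Y).card =
          (A.B p).card * 2 := by
        simpa using e1
      have e2' : ∑ i ∈ (range A.N).erase p,
          ((A.B i ∩ Y).card : ℤ) * (((A.B i ∩ Y).card : ℤ) - 1) = 2 := by
        norm_num at e2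
        linarith
      linarith
    · -- all points have multiplicity at most `k - 3`
      by_contra hcon
      have hB3 : ∀ i < A.N, (A.B i).card + 3 ≤ k + 1 := by
        intro i hi
        have h1 := hB i hi
        have h2 : (A.B i).card + 2 ≠ k + 1 := fun h => hA ⟨i, hi, h⟩
        omega
      have hcard : ∀ l : V, Fintype.card {x : V // x ≠ l} = k := by
        intro l
        have h1 : Fintype.card {x : V // x ≠ l} = Fintype.card V - 1 := by
          simp [Fintype.card_subtype_compl]
        rw [h1, hk]
        omega
      have h1 : ∀ l : V, ∑ i ∈ range A.N, (if l ∈ A.B i then psi (A.B i).card else 0) ≤ 0 := by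
        intro l
        rw [← Phi_del]
        have h2 := ih {x : V // x ≠ l} (del A l) (hcard l) (by omega) (by
          intro i hi
          have h3 := hB3 i hi
          have h4 := card_del A l i
          have h5 : ((del A l).B i).card ≤ (A.B i).card := by
            rw [h4]
            exact Nat.sub_le _ _
          omega)
        push_cast at hcon
        linarith
      have h1P : ∀ P : Finset V,
          ∑ i ∈ range A.N, ((A.B i ∩ P).card : ℤ) * psi (A.B i).card ≤ 0 := by
        intro P
        rw [← sum_psi]
        exact sum_nonpos fun l _ => h1 l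
      -- the inequalities of `S_M`
      have hm := hM V A (by omega)
      have m1 := hm.1 (fun i hi => by have := hB i hi; omega)
      have m2 := hm.2 (fun i hi => by have := hB i hi; omega)
      have hPhi := Phi_eq A
      have m1' : (A.f1 : ℤ) + 3 ≤ 3 * A.f0 := by exact_mod_cast m1
      have m2' : 2 * (A.t2 : ℤ) + 3 * A.f1 + 10 ≤ 10 * A.f0 := by exact_mod_cast m2
      have key : ∀ p < A.N, 4 ≤ (A.B p).card → (A.B p).card = 4 ∧ 3 * (A.f0 : ℤ) = A.f1 + 3 ∧
          (A.f0 : ℤ) = 2 * k - 5 ∧ (A.t2 : ℤ) = k - 3 := by
        intro p hp hp4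
        set Y := univ \ A.B p with hY
        have e1 := pairs_prod A (A.B p) Y (hdis p)
        have e2 := pairs_off A Y
        have e3 := h1P (A.B p)
        have hmem : p ∈ range A.N := mem_range.2 hp
        have hz : (A.B p ∩ Y).card = 0 := hYp p
        rw [← add_sum_erase _ _ hmem] at e1 e2 e3
        rw [hz] at e1 e2
        rw [inter_self] at e3
        have hps : psi (A.B p).card = -1 := by
          unfold psi
          rw [if_neg (by omega), if_pos hp4]
        rw [hps] at e3
        have la : ∑ i ∈ (range A.N).erase p, (((A.B i ∩ A.B p).card : ℤ) * (A.B i ∩ Y).card -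
            ((A.B i ∩ A.B p).card : ℤ) * psi (A.B i).card) ≤
            ∑ i ∈ (range A.N).erase p, (if 3 ≤ (A.B i).card then ((A.B i).card : ℤ) else 0) := by
          refine sum_le_sum fun i hi => ?_
          obtain ⟨h6, h7⟩ := mem_erase.1 hi
          rw [hsplit p i]
          exact loc_a _ _ (data p hp i (mem_range.1 h7) h6)
        have lb : ∑ i ∈ (range A.N).erase p, (((A.B i ∩ A.B p).card : ℤ) * (A.B i ∩ Y).card -
            ((A.B i ∩ A.B p).card : ℤ) * psi (A.B i).card) ≤
            ∑ i ∈ (range A.N).erase p,
              ((A.B i ∩ Y).card : ℤ) * (((A.B i ∩ Y).card : ℤ) - 1) := by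
          refine sum_le_sum fun i hi => ?_
          obtain ⟨h6, h7⟩ := mem_erase.1 hi
          have := loc_b _ (A.B i ∩ Y).card (data p hp i (mem_range.1 h7) h6)
          rw [← hsplit p i] at this
          exact this
        rw [sum_sub_distrib] at la lb
        -- names
        set r : ℤ := ((A.B p).card : ℤ) with hr
        set s : ℤ := (Y.card : ℤ) with hs
        have hrs : r + s = k + 1 := by
          rw [hs, hY, hYc p]
          ring
        have hr4 : 4 ≤ r := by rw [hr]; exact_mod_cast hp4
        have hs3 : 3 ≤ s := by
          have := hB3 p hp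
          have h6 : (((A.B p).card + 3 : ℕ) : ℤ) ≤ ((k + 1 : ℕ) : ℤ) := by exact_mod_cast this
          push_cast at h6
          linarith
        have q1 : r * s ≤ r + s * (s - 1) := by
          simp only [Nat.cast_zero, mul_zero, zero_mul, zero_add] at e1 e2
          linarith
        have q2 : r ≤ s := by nlinarith
        have q3 : 4 * (r + s) - 16 ≤ r * s := by nlinarith
        have q4 : r * s ≤ ∑ i ∈ range A.N, (if 3 ≤ (A.B i).card then ((A.B i).card : ℤ) else 0) := by
          rw [← add_sum_erase _ _ hmem, if_pos (by omega)]
          simp only [Nat.cast_zero, mul_zero, zero_add] at e1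
          linarith
        have q5 : ∑ i ∈ range A.N, (if 3 ≤ (A.B i).card then ((A.B i).card : ℤ) else 0) =
            A.f1 - 2 * A.t2 := by
          rw [F1_eq, T2_eq, mul_sum, ← sum_sub_distrib]
          refine sum_congr rfl fun i _ => ?_
          split_ifs <;> omega
        rw [← hPhi] at hcon
        rw [q5] at q4
        push_cast at hcon
        have hcon' : 4 * (A.f0 : ℤ) - A.f1 - A.t2 ≤ k + 1 := by
          have := not_le.1 hcon
          omega
        have w1 : 3 * (A.f0 : ℤ) = A.f1 + 3 := by linarith
        have w2 : (A.f0 : ℤ) - A.t2 = k - 2 := by linarith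
        have w3 : r * s = 4 * (r + s) - 16 := by linarith
        have w4 : (r - 4) * (s - 4) = 0 := by linarith
        have w5 : r = 4 := by
          rcases mul_eq_zero.1 w4 with h | h <;> linarith
        refine ⟨?_, w1, ?_, ?_⟩
        · rw [hr] at w5
          exact_mod_cast w5
        · linarith
        · linarith
      by_cases h4 : ∃ p < A.N, 4 ≤ (A.B p).card
      · -- all points have multiplicity at most four
        obtain ⟨p, hp, hp4⟩ := h4
        obtain ⟨-, w1, w2, w3⟩ := key p hp hp4
        have hb4 : ∀ i < A.N, (A.B i).card ≤ 4 := by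
          intro i hi
          by_contra h
          have := (key i hi (by omega)).1
          omega
        have e := pairs_off A univ
        rw [card_univ, hk] at e
        have e' : 6 * (A.f1 : ℤ) - 12 * A.f0 + 2 * A.t2 = ∑ i ∈ range A.N,
            ((A.B i ∩ univ).card : ℤ) * (((A.B i ∩ univ).card : ℤ) - 1) := by
          rw [F0_eq, F1_eq, T2_eq, mul_sum, mul_sum, mul_sum, ← sum_sub_distrib,
            ← sum_add_distrib]
          refine sum_congr rfl fun i hi => ?_
          have h1 := hb4 i (mem_range.1 hi)
          rw [inter_univ]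
          generalize (A.B i).card = b at h1 ⊢
          interval_cases b <;> norm_num
        rw [e] at e'
        push_cast at e'
        nlinarith [sq_nonneg (2 * (k : ℤ) - 13)]
      · have hb3 : ∀ i < A.N, (A.B i).card ≤ 3 := by
          intro i hi
          by_contra h
          exact h4 ⟨i, hi, by omega⟩
        have e3 := h1P univ
        have q : 3 * (A.f0 : ℤ) - A.f1 ≤
            ∑ i ∈ range A.N, ((A.B i ∩ univ).card : ℤ) * psi (A.B i).card := by
          rw [F0_eq, F1_eq, mul_sum, ← sum_sub_distrib]
          refine sum_le_sum fun i hi => ?_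
          have h5 := hb3 i (mem_range.1 hi)
          rw [inter_univ]
          generalize (A.B i).card = b at h5 ⊢
          unfold psi
          interval_cases b <;> norm_num
        linarith

/-- the improved Hirzebruch inequality -/
theorem strictH (hM : S_M) (V : Type) [Fintype V] [LinearOrder V] (A : Arr V)
    (hV : 2 ≤ Fintype.card V) (hB : ∀ i < A.N, (A.B i).card + 2 ≤ Fintype.card V) :
    (Fintype.card V : ℤ) + 1 + A.f1 + A.t2 ≤ 4 * A.f0 := by
  have h := main' hM (Fintype.card V) V A rfl hV hB
  rw [← Phi_eq] at h
  linarith

end K9h64.PL
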