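import Pool.Agent.K9h64.PL.Eq

/-!
# The sharp slope inequality for Kummer coverings over pseudoline arrangements, exponents `n ≥ 5`
-/

open scoped Classical

namespace K9h64.PL

open K9h61.PL K9h61.PL.LeafH Finset

/-- `c₂ / n ^ (k - 3)` -/
def CC2 (k f0 f1 t2 n : ℤ) : ℤ :=
  n ^ 2 * (3 - 2 * k + f1 - f0) + 2 * n * (k - f1 + f0) + f1 - t2

/-- `c₁² / n ^ (k - 3)` -/
def CC1 (k f0 f1 t2 n : ℤ) : ℤ :=
  n ^ 2 * (9 - 5 * k + 3 * f1 - 4 * f0) + 4 * n * (k - f1 + f0) + f1 - f0 + k + t2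

section

variable {V : Type} [Fintype V] [LinearOrder V]

theorem diff_eq (A : Arr V) : (A.f1 : ℤ) - A.f0 =
    ∑ i ∈ range A.N, (if 2 ≤ (A.B i).card then ((A.B i).card : ℤ) - 1 else 0) := by
  rw [F0_eq, F1_eq, ← sum_sub_distrib]
  refine sum_congr rfl fun i _ => ?_
  split_ifs <;> ring

theorem two_f0_le (A : Arr V) : 2 * (A.f0 : ℤ) ≤ A.f1 := by
  rw [F0_eq, F1_eq, mul_sum]
  refine sum_le_sum fun i _ => ?_
  split_ifs with h
  · have : (2 : ℤ) ≤ ((A.B i).card : ℤ) := by exact_mod_cast h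
    linarith
  · norm_num

theorem four_le (A : Arr V) (hV : 2 ≤ Fintype.card V)
    (hB : ∀ i < A.N, (A.B i).card + 2 ≤ Fintype.card V) : 4 ≤ Fintype.card V := by
  obtain ⟨x, y, hxy⟩ := Fintype.one_lt_card_iff.1 hV
  obtain ⟨i, hi, hx, hy⟩ := A.cross x y hxy
  have := Finset.one_lt_card.2 ⟨x, hx, y, hy, hxy⟩
  have := hB i hi
  omega

/-- a lower bound for `f₁ - f₀` -/
theorem bbound (A : Arr V) (hV : 2 ≤ Fintype.card V)
    (hB : ∀ i < A.N, (A.B i).card + 2 ≤ Fintype.card V) :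
    (Fintype.card V : ℤ) - 4 ≤ A.f1 - A.f0 - 2 * Fintype.card V + 3 ∧
      1 ≤ (A.f1 : ℤ) - A.f0 - 2 * Fintype.card V + 3 := by
  have hk4 := four_le A hV hB
  have hk4' : (4 : ℤ) ≤ Fintype.card V := by exact_mod_cast hk4
  by_cases h3 : ∃ p < A.N, 3 ≤ (A.B p).card
  · obtain ⟨p, hp, hp3⟩ := h3
    set Y := univ \ A.B p with hY
    have e1 := pairs_prod A (A.B p) Y disjoint_sdiff
    have hYc : (Y.card : ℤ) = Fintype.card V - (A.B p).card := by
      have h1 : (univ \ A.B p).card + (A.B p).card = (univ : Finset V).card :=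
        card_sdiff_add_card_eq_card (subset_univ _)
      rw [card_univ] at h1
      have h2 : (((univ \ A.B p).card + (A.B p).card : ℕ) : ℤ) = ((Fintype.card V : ℕ) : ℤ) := by
        rw [h1]
      push_cast at h2
      rw [hY]
      linarith
    have hYp : (A.B p ∩ Y).card = 0 := by
      rw [card_eq_zero]
      ext x
      simp [hY]
    have hmem : p ∈ range A.N := mem_range.2 hp
    have hD := diff_eq A
    rw [← add_sum_erase _ _ hmem] at e1 hD
    rw [hYp] at e1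
    rw [if_pos (by omega : 2 ≤ (A.B p).card)] at hD
    have h5 : ∑ i ∈ (range A.N).erase p, ((A.B i ∩ A.B p).card : ℤ) * (A.B i ∩ Y).card ≤
        ∑ i ∈ (range A.N).erase p, (if 2 ≤ (A.B i).card then ((A.B i).card : ℤ) - 1 else 0) := by
      refine sum_le_sum fun i hi => ?_
      obtain ⟨h6, h7⟩ := mem_erase.1 hi
      have hle : (A.B i ∩ A.B p).card ≤ 1 := by
        rw [card_le_one]
        intro a ha b hb
        by_contra hab
        rw [mem_inter] at ha hb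
        exact h6 (A.uniq a b hab i (mem_range.1 h7) p hp ha.1 hb.1 ha.2 hb.2)
      have hsplit : (A.B i).card = (A.B i ∩ A.B p).card + (A.B i ∩ Y).card := by
        rw [← card_union_of_disjoint]
        · congr 1
          ext x
          simp only [hY, mem_union, mem_inter, mem_sdiff, mem_univ, true_and]
          tauto
        · rw [disjoint_left]
          intro x hx hx2
          rw [mem_inter] at hx hx2
          exact (mem_sdiff.1 (hY ▸ hx2.2)).2 hx.2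
      rw [hsplit]
      generalize (A.B i ∩ A.B p).card = a at hle ⊢
      generalize (A.B i ∩ Y).card = b
      interval_cases a
      · split_ifs
        · push_cast
          have : (2 : ℤ) ≤ b := by omega
          linarith
        · simp
      · split_ifs
        · push_cast
          linarith
        · have : b = 0 := by omega
          subst this
          simp
    have hr3 : (3 : ℤ) ≤ (A.B p).card := by exact_mod_cast hp3
    have hs2 : (2 : ℤ) ≤ Y.card := by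
      have := hB p hp
      have h6 : (((A.B p).card + 2 : ℕ) : ℤ) ≤ ((Fintype.card V : ℕ) : ℤ) := by exact_mod_cast this
      push_cast at h6
      linarith
    have h8 : 0 ≤ (((A.B p).card : ℤ) - 3) * ((Y.card : ℤ) - 2) :=
      mul_nonneg (by linarith) (by linarith)
    have hk : (Fintype.card V : ℤ) = (A.B p).card + Y.card := by linarith
    simp only [Nat.cast_zero, mul_zero, zero_add] at e1
    constructor <;> nlinarith
  · have hb : ∀ i < A.N, (A.B i).card ≤ 2 := by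
      intro i hi
      by_contra h
      exact h3 ⟨i, hi, by omega⟩
    have e := pairs_off A univ
    rw [card_univ] at e
    have e' : 2 * ((A.f1 : ℤ) - A.f0) = ∑ i ∈ range A.N,
        ((A.B i ∩ univ).card : ℤ) * (((A.B i ∩ univ).card : ℤ) - 1) := by
      rw [diff_eq, mul_sum]
      refine sum_congr rfl fun i hi => ?_
      have h1 := hb i (mem_range.1 hi)
      rw [inter_univ]
      generalize (A.B i).card = b at h1 ⊢
      interval_cases b <;> norm_num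
    rw [e] at e'
    constructor
    · nlinarith [sq_nonneg (2 * (Fintype.card V : ℤ) - 7)]
    · nlinarith [mul_nonneg (sub_nonneg.2 hk4')
        (show (0 : ℤ) ≤ (Fintype.card V : ℤ) - 1 by linarith)]

end

theorem slope_decomp (n k D h S m f0 f1 t2 : ℤ) (hm : m = h + (k - 3) - D) (h2 : t2 = 3 + D + S)
    (h0 : f0 = 3 + D + S + m) (h1 : f1 = 2 * (3 + D + S) + 3 * m + S) :
    2 * (5 * (n - 2) ^ 2 * CC2 k f0 f1 t2 n - (2 * n ^ 2 - 10 * n + 15) * CC1 k f0 f1 t2 n) =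
      6 * (n - 5) ^ 2 * (h - 1) + 2 * (n - 5) ^ 2 * (n ^ 2 - 1) * D +
      (2 * n ^ 3 - 9 * n ^ 2 + 10 * n - 15) * (6 * h + 3 * S + 2 * D - 2 * (k - 3)) +
      (6 * n ^ 3 - 35 * n ^ 2 + 30 * n + 35) * S := by
  unfold CC1 CC2
  subst hm h2 h0 h1
  ring

theorem cc2_pos {n k D h S m f0 f1 t2 : ℤ} (hn : 5 ≤ n) (hk : 4 ≤ k) (hh : 1 ≤ h)
    (hm : m = h + (k - 3) - D) (h2 : t2 = 3 + D + S)
    (h0 : f0 = 3 + D + S + m) (h1 : f1 = 2 * (3 + D + S) + 3 * m + S)
    (hf : 2 * f0 ≤ f1) (hB1 : k - 4 ≤ f1 - f0 - 2 * k + 3) (hB2 : 1 ≤ f1 - f0 - 2 * k + 3) :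
    0 < CC2 k f0 f1 t2 n := by
  obtain ⟨B, hB⟩ : ∃ B, B = f1 - f0 - 2 * k + 3 := ⟨_, rfl⟩
  obtain ⟨c, hc⟩ : ∃ c, c = k - 3 := ⟨_, rfl⟩
  rw [← hB] at hB1 hB2
  have e : CC2 k f0 f1 t2 n = B * (n ^ 2 - 2 * n + 2) - c * (2 * n - 3) + 3 - 2 * S - h := by
    unfold CC2
    rw [hB, hc]
    subst hm h2 h0 h1
    ring
  have e1 : 2 * S + 2 * h ≤ 2 * B + 2 * c := by
    subst hm h2 h0 h1
    linarith
  have e2 : B * (n ^ 2 - 2 * n) - c * (2 * n - 1) + 4 ≤ CC2 k f0 f1 t2 n := by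
    rw [e]
    linarith
  have hB1' : c - 1 ≤ B := by linarith
  have h3 : 0 < n ^ 2 - 6 * n + 6 := by nlinarith
  have h4 : 0 ≤ n ^ 2 - 2 * n := by nlinarith
  rcases le_total c 2 with h5 | h5
  · have h6 : 1 * (n ^ 2 - 2 * n) ≤ B * (n ^ 2 - 2 * n) := mul_le_mul_of_nonneg_right hB2 h4
    have h7 : c * (2 * n - 1) ≤ 2 * (2 * n - 1) := mul_le_mul_of_nonneg_right h5 (by linarith)
    linarith
  · have h6 : (c - 1) * (n ^ 2 - 2 * n) ≤ B * (n ^ 2 - 2 * n) :=
      mul_le_mul_of_nonneg_right hB1' h4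
    have h8 : 0 ≤ n ^ 2 - 4 * n + 1 := by nlinarith
    have h7 : 0 ≤ (c - 2) * (n ^ 2 - 4 * n + 1) := mul_nonneg (by linarith) h8
    nlinarith

/-- **sharp slopes** -/
theorem slope (hM : S_M) (V : Type) [Fintype V] [LinearOrder V] (A : Arr V)
    (hV : 2 ≤ Fintype.card V) (hB : ∀ i < A.N, (A.B i).card + 2 ≤ Fintype.card V)
    (n : ℤ) (hn : 5 ≤ n) :
    0 < CC2 (Fintype.card V) A.f0 A.f1 A.t2 n ∧
    (2 * n ^ 2 - 10 * n + 15) * CC1 (Fintype.card V) A.f0 A.f1 A.t2 n ≤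
      5 * (n - 2) ^ 2 * CC2 (Fintype.card V) A.f0 A.f1 A.t2 n ∧
    ((2 * n ^ 2 - 10 * n + 15) * CC1 (Fintype.card V) A.f0 A.f1 A.t2 n =
      5 * (n - 2) ^ 2 * CC2 (Fintype.card V) A.f0 A.f1 A.t2 n →
      Fintype.card V = 6 ∧ A.t2 = 3 ∧ A.f0 = 7 ∧ A.f1 = 18) := by
  obtain ⟨k, D, h, S, m, hk, hk4, hD, hh, hS, hm, h2, h0, h1, hX, hp⟩ := keyX hM V A hV hB
  have hb := bbound A hV hB
  have hf := two_f0_le A
  rw [hk] at hb ⊢
  have hdec := slope_decomp n k D h S m A.f0 A.f1 A.t2 hm h2 h0 h1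
  have ht : 0 ≤ n - 5 := by linarith
  have c1 : 0 < 2 * n ^ 3 - 9 * n ^ 2 + 10 * n - 15 := by
    have : 2 * n ^ 3 - 9 * n ^ 2 + 10 * n - 15 =
        60 + 70 * (n - 5) + 21 * (n - 5) ^ 2 + 2 * (n - 5) ^ 3 := by ring
    rw [this]
    positivity
  have c2 : 0 < 6 * n ^ 3 - 35 * n ^ 2 + 30 * n + 35 := by
    have : 6 * n ^ 3 - 35 * n ^ 2 + 30 * n + 35 =
        60 + 130 * (n - 5) + 55 * (n - 5) ^ 2 + 6 * (n - 5) ^ 3 := by ring
    rw [this]
    positivity
  have a1 : 0 ≤ 6 * (n - 5) ^ 2 * (h - 1) := mul_nonneg (by positivity) (by linarith)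
  have a2 : 0 ≤ 2 * (n - 5) ^ 2 * (n ^ 2 - 1) * D :=
    mul_nonneg (mul_nonneg (by positivity) (by nlinarith)) hD
  have a3 : 0 ≤ (2 * n ^ 3 - 9 * n ^ 2 + 10 * n - 15) * (6 * h + 3 * S + 2 * D - 2 * (k - 3)) :=
    mul_nonneg c1.le (by linarith)
  have a4 : 0 ≤ (6 * n ^ 3 - 35 * n ^ 2 + 30 * n + 35) * S := mul_nonneg c2.le hS
  refine ⟨cc2_pos hn hk4 hh hm h2 h0 h1 hf hb.1 hb.2, by linarith, fun he => ?_⟩
  rw [he, sub_self, mul_zero] at hdec
  have b3 : (2 * n ^ 3 - 9 * n ^ 2 + 10 * n - 15) *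
      (6 * h + 3 * S + 2 * D - 2 * (k - 3)) = 0 := by linarith
  have b4 : (6 * n ^ 3 - 35 * n ^ 2 + 30 * n + 35) * S = 0 := by linarith
  have hS0 : S = 0 := (mul_eq_zero.1 b4).resolve_left c2.ne'
  have hX0 : 6 * h + 3 * S + 2 * D - 2 * (k - 3) = 0 := (mul_eq_zero.1 b3).resolve_left c1.ne'
  subst hS0
  have hDk : D = k - 3 - 3 * h := by linarith
  subst hDk
  have hk6 : k ≤ 6 := by nlinarith
  have hh1 : h = 1 := by
    have : 3 * h ≤ 3 := by linarith
    linarith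
  subst hh1
  have hk6' : k = 6 := by linarith
  subst hk6'
  refine ⟨by exact_mod_cast hk, ?_, ?_, ?_⟩
  · have : (A.t2 : ℤ) = 3 := by linarith
    exact_mod_cast this
  · have : (A.f0 : ℤ) = 7 := by linarith
    exact_mod_cast this
  · have : (A.f1 : ℤ) = 18 := by linarith
    exact_mod_cast this

end K9h64.PL
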